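import Mathlib
import Pool.Agent.Y713.TG.Stm
import Pool.Agent.Y713.TG.StmB
import Pool.Agent.Q308.TC.Span

/-!
# The Tate conjecture at `ℓ` for almost all surfaces `y ^ ℓ = (x - c 0) ⋯ (x - c (m - 1)) (x - g(t))`

Let `k` be a number field, or any finitely generated field of characteristic zero, which contains the
roots of unity of order `ℓ`, `ℓ` any prime, `k'` a separable closure, `K = k(t)`, `F = k'(t)`. Let
`c 0, …, c (m - 1)` be different elements of `k`, `m + 1` prime to `ℓ`, and `g` a polynomial over `k`. The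
surface

`X_g : y ^ ℓ = (x - c 0) ⋯ (x - c (m - 1)) (x - g(t))`

is fibred over the `t`-line in cyclic covers of degree `ℓ` of the `x`-line with the constant branch
points `c i`, infinity, and one moving branch point `g(t)`; its geometric genus tends to infinity with
the degree of `g`. Let `J` be the Jacobian of the generic fibre.

Let `N` be prime to `ℓ`, and let `b i`, `i` in a finite set `κ`, be any polynomials over `k` which span the
polynomials of degree at most `N` (for example `b i = t ^ i`, or, for a number field `k`, the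
`ω_j t ^ i` for a basis `ω` of the ring of integers of `k`).

Theorem. Among the integer combinations `g = ∑ v i • b i` with `|v i| ≤ B`, the proportion of those for
which `g` has degree `N` and

1. the Tate conjecture for divisors at the prime `ℓ` holds for `X_g` over `k`: every class in
   `V_ℓ Sel(J / F)` which is fixed by the Galois group of `k` comes from `J(K)` (as
   `Br(X ⊗ k') = Ш(J / F)`, this is the surjectivity of the cycle class map in codimension one);
2. the group `J(K) / (1 - σ) J(K)`, where `σ` is the automorphism `y ↦ ζ y`, is finite of order at most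
   `ℓ ^ m`, the order of the group of the points fixed by `σ`: so the rank of `J(K)` is zero, and all the
   Tate classes come from the fibres and the section at infinity,

tends to one as `B` tends to infinity.

Method: by the descent by `1 - σ` (`Pool.Agent.Y713`) it is sufficient that all the `g - c i` are
irreducible. The field `k` can be embedded in `ℚ_p`, with all the `c i` and all the coefficients which
occur integral, for infinitely many primes `p` (Cassels); for each of these primes a positive
proportion (depending only on `N`) of the `g` is such that `g - c i` is irreducible modulo `p`.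
-/

set_option autoImplicit false
set_option linter.all false

open Polynomial IsDedekindDomain Filter Topology

namespace Pool.Agent.Results.MP_97f789_ag.AlmostAllMovingPoint

open Pool.Agent.TH115.GD (IsTower)
open Pool.Agent.Y713.Tate (TateAt quotOrder)

section defs

variable {k : Type} [Field k]

/-- The polynomial `(x - c 0) ⋯ (x - c (m - 1)) (x - g)` over `K = k(t)`. -/
noncomputable def branchPoly {m : ℕ} (K : Type) [Field K] [Algebra k[X] K] (c : Fin m → k)
    (g : k[X]) : K[X] :=
  (∏ i, (X - C (algebraMap k[X] K (C (c i))))) * (X - C (algebraMap k[X] K g))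

/-- The root of unity in `K = k(t)`. -/
theorem rootK {ℓ : ℕ} (K : Type) [Field K] [Algebra k[X] K] {ζ : k} (hζ : IsPrimitiveRoot ζ ℓ) :
    algebraMap k[X] K (C ζ) ^ ℓ = 1 := by
  rw [← map_pow, ← C_pow, hζ.pow_eq_one, C_1, map_one]

variable {κ : Type} [Fintype κ]

/-- The polynomials `b i` have degree at most `N` and span the polynomials of degree at most `N`. -/
def Spans (N : ℕ) (b : κ → k[X]) : Prop :=
  (∀ i, (b i).natDegree ≤ N) ∧ ∀ j : Fin (N + 1), ∃ c : κ → k, ∑ i, C (c i) * b i = X ^ (j : ℕ)

/-- The integer combination of the `b i` with the coefficients `v i`. -/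
noncomputable def comb (b : κ → k[X]) (v : κ → ℤ) : k[X] := ∑ i, C ((v i : ℤ) : k) * b i

/-- The integer vectors with coordinates of absolute value at most `B`. -/
def Box (κ : Type) (B : ℕ) : Set (κ → ℤ) := {v | ∀ i, |v i| ≤ B}

/-- The vectors `v` for which `g = ∑ v i • b i` has degree `N`, the surface `X_g` satisfies the Tate
conjecture at `ℓ`, and `J(K) / (1 - σ) J(K)` is finite of order at most `ℓ ^ m`. -/
def Good (ℓ m N : ℕ) {K F : Type} (k' : Type) [Field K] [Algebra k[X] K] [Field k'] [Field F]
    [Algebra k'[X] F] [IsFractionRing k'[X] F] [Algebra K F] {ζ : k} (hζ : IsPrimitiveRoot ζ ℓ)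
    (c : Fin m → k) (b : κ → k[X]) : Set (κ → ℤ) :=
  {v | (comb b v).natDegree = N ∧ TateAt (F := F) ℓ k' (branchPoly K c (comb b v)) ∧
    quotOrder ℓ (branchPoly K c (comb b v)) (rootK K hζ) ≠ 0 ∧
    quotOrder ℓ (branchPoly K c (comb b v)) (rootK K hζ) ≤ ℓ ^ m}

end defs

/-- The product over the branch points. -/
theorem branchPoly_eq {k : Type} [Field k] {m : ℕ} (K : Type) [Field K] [Algebra k[X] K]
    (c : Fin m → k) (g : k[X]) :
    Pool.Agent.Y713.SE.brp K (Fin.snoc (fun i => C (c i)) g : Fin (m + 1) → k[X]) =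
      branchPoly K c g := by
  unfold Pool.Agent.Y713.SE.brp branchPoly
  rw [Fin.prod_univ_castSucc]
  simp only [Fin.snoc_castSucc, Fin.snoc_last]

/-- One polynomial. -/
theorem good_of {ℓ m : ℕ} {k k' K F : Type} [Field k] [CharZero k] [Field k'] [Algebra k k'] [Field K]
    [Algebra k[X] K] [Field F] [Algebra k'[X] F] [IsFractionRing k'[X] F] [Algebra K F]
    (hT : IsTower k k' K F) (hℓ : ℓ.Prime) {ζ : k} (hζ : IsPrimitiveRoot ζ ℓ)
    (hm : ¬ ℓ ∣ m + 1) {c : Fin m → k} (hc : Function.Injective c) {g : k[X]}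
    (hirr : ∀ i, Irreducible (g - C (c i))) (hd : ¬ ℓ ∣ g.natDegree) :
    TateAt (F := F) ℓ k' (branchPoly K c g) ∧ quotOrder ℓ (branchPoly K c g) (rootK K hζ) ≠ 0 ∧
      quotOrder ℓ (branchPoly K c g) (rootK K hζ) ≤ ℓ ^ m := by
  have hd' : ∀ i, ¬ ℓ ∣ (g - C (c i)).natDegree := fun i => by
    rwa [natDegree_sub_C]
  have main := Pool.Agent.Y713.Tate.main' (F := F) hT hℓ hζ
    (rootK K hζ) hm (Pool.Agent.Y713.SE.brf_inj hc hirr) (fun i j hij π hπ hdv => by
      obtain ⟨i0, h4, -⟩ := Pool.Agent.Y713.SE.brf_dvd hc hirr hπ hij hdv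
      exact (hirr i0).separable.of_dvd h4.dvd)
    (Pool.Agent.Y713.SE.brf_rigid hc hirr hℓ hd')
  have hcoll := Pool.Agent.Y713.SE.brf_coll hc hirr
  have e' : Pool.Agent.Y713.SE.brp K (Pool.Agent.Y713.SE.brf c g) = branchPoly K c g :=
    branchPoly_eq K c g
  rw [e'] at main
  obtain ⟨r1, ⟨m', -, r2, r3⟩, -, r4⟩ := main
  refine ⟨r4 hcoll, r1, ?_⟩
  refine le_trans ?_ (Nat.pow_le_pow_right hℓ.pos hcoll)
  refine le_trans ?_ r2
  exact Nat.le_mul_of_pos_left _ (pow_pos hℓ.pos _)

theorem pos_aux {ℓ N : ℕ} (hN : ¬ ℓ ∣ N) : N ≠ 0 := by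
  rintro rfl
  exact hN (dvd_zero ℓ)

/-- **The Tate conjecture at `ℓ` for almost all surfaces with one moving branch point.** -/
theorem result {ℓ m N : ℕ} {k k' K F : Type} [Field k] [CharZero k]
    (hk : ∃ s : Finset k, Subfield.closure (s : Set k) = ⊤) [Field k'] [Algebra k k'] [Field K]
    [Algebra k[X] K] [Field F] [Algebra k'[X] F] [IsFractionRing k'[X] F] [Algebra K F]
    (hT : IsTower k k' K F) (hℓ : ℓ.Prime) {ζ : k} (hζ : IsPrimitiveRoot ζ ℓ)
    (hm : ¬ ℓ ∣ m + 1) {c : Fin m → k} (hc : Function.Injective c) (hN : ¬ ℓ ∣ N)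
    {κ : Type} [Fintype κ] {b : κ → k[X]} (hb : Spans N b) :
    Tendsto (fun B : ℕ => ((Box κ B ∩ Good (F := F) (K := K) ℓ m N k' hζ c b).ncard : ℝ) /
      (Box κ B).ncard) atTop (𝓝 1) := by
  have hN0 : 0 < N := Nat.pos_of_ne_zero (pos_aux hN)
  have h0 : ∀ i : Fin m, Pool.Agent.Q126.TD.Full {v : κ → ℤ |
      Irreducible ((X - C (c i)).comp (Pool.Agent.Q308.TC.comb b v)) ∧
      (Pool.Agent.Q308.TC.comb b v).natDegree = N} := by
    intro i
    exact Pool.Agent.Q308.TC.span_full hk hN0 hb (irreducible_X_sub_C (c i))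
  have h1 : Pool.Agent.Q126.TD.Full {v : κ → ℤ | ∀ i ∈ (Finset.univ : Finset (Fin m)),
      v ∈ {v : κ → ℤ | Irreducible ((X - C (c i)).comp (Pool.Agent.Q308.TC.comb b v)) ∧
      (Pool.Agent.Q308.TC.comb b v).natDegree = N}} := by
    refine Pool.Agent.Q308.TC.full_biInter (ι := Fin m) _ _ ?_
    intro i _
    exact h0 i
  have h2 := Pool.Agent.Q308.TC.span_full hk hN0 hb (irreducible_X (R := k))
  have h3 : Pool.Agent.Q126.TD.Full (Good (F := F) (K := K) ℓ m N k' hζ c b) := by
    refine (h1.inter h2).mono ?_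
    rintro v ⟨hv, -, hd⟩
    have hd' : (comb b v).natDegree = N := hd
    have hirr : ∀ i, Irreducible (comb b v - C (c i)) := by
      intro i
      have h := (hv i (Finset.mem_univ i)).1
      rw [sub_comp, X_comp, C_comp] at h
      exact h
    exact ⟨hd', good_of hT hℓ hζ hm hc hirr (by rw [hd']; exact hN)⟩
  refine h3.congr fun B => ?_
  have h5 : ((Box κ B).ncard : ℝ) = (2 * B + 1 : ℝ) ^ Fintype.card κ := by
    have : (Box κ B).ncard = (2 * B + 1) ^ Fintype.card κ :=
      Pool.Agent.Q126.TD.box_ncard (κ := κ) B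
    rw [this]
    push_cast
    rfl
  rw [h5]
  rfl

end Pool.Agent.Results.MP_97f789_ag.AlmostAllMovingPoint
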