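import Pool.Agent.Q193.LT.Cyc

/-!
# The codimension one Tate conjecture and cubic hypersurfaces `T(x, y, z) = 1` with four variables `z`

Let `K` be a number field, `G` its absolute Galois group and `ℓ` a prime number. For a smooth projective
variety `Y` over `K` let `A^n(Y)` be the `ℚ_ℓ`-subspace of `H^{2n}(Y_{K̄}, ℚ_ℓ(n))` generated by the
classes of algebraic cycles on `Y`, and `B^n(Y) = H^{2n}(Y_{K̄}, ℚ_ℓ(n))^G`. Both are functors of Chow
motives over `K`. For a separated scheme `X` of finite type over `K` let `W(X)` be its weight complex
(Gillet, Soulé), with `W(X) = h(X)` for smooth projective `X`, and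
`A^{n,i}(X) = H^i(A^n(W(X)))`, `B^{n,i}(X) = H^i(B^n(W(X)))` for `n, i ∈ ℤ`. The inclusion gives maps
`A^{n,i}(X) → B^{n,i}(X)`; `BijAll C X` says that they are isomorphisms for all `n` and `i`.

For a smooth projective surface `Y` this is the Tate conjecture for `Y`, that is for divisors on `Y` (the
cases `n = 0, 2` are trivial). `TateOne Y` is the statement of question Q1 for `Y`. It is known that it
is true for all smooth projective `Y` over `K` if it is true for surfaces (hypothesis `surfaces`: by the
Lefschetz theorems `H^2(Y)(1)` is a direct factor of `H^2(S)(1)` for a smooth surface `S` in `Y`, by a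
projection which respects Hodge classes, and so divisor classes by the Lefschetz theorem on classes of
type `(1, 1)`).

**Theorem.** (1) The Tate conjecture for divisors (question Q1) is true for all smooth projective
varieties over `K` if and only if the maps `A^{n,i}(Z) → B^{n,i}(Z)` are isomorphisms for the smooth
affine cubic hypersurfaces `Z : T(x, y, z) = 1` of all trilinear forms `T` over `K` such that one of the
three blocks of variables has at most four variables (the other two blocks are arbitrary). As varieties
over a number field are also varieties over `ℚ`, it is enough to consider `K = ℚ`.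

(2) Unconditionally, the maps are isomorphisms for the hypersurfaces `T(x, y, z) = 1` such that one of the
three blocks of variables has at most three variables.
-/

set_option autoImplicit false

open CategoryTheory CategoryTheory.Limits AlgebraicGeometry Pool.Agent.Y116.UV Pool.Agent.Z125.UN
  Pool.Agent.Q193.LT

universe w

namespace Pool.Agent.Results.MP_97f789_ag.FourVariables

/-- The maps are isomorphisms for all smooth projective schemes of dimension at most `n`. -/
def Proj {k E : Type} [Field k] [Field E] (C : PairData.{w} k (ℤ × ℤ) E) (n : ℕ) : Prop :=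
  ∀ Y : Sch k, SmoothProj Y → topologicalKrullDim Y.left ≤ n → BijAll C Y

/-- The maps are isomorphisms for all hypersurfaces `T = 1` with a block of at most `m` variables. -/
def Forms {k E : Type} [Field k] [Field E] (C : PairData.{w} k (ℤ × ℤ) E) (m : ℕ) : Prop :=
  ∀ (a b c : ℕ) (T : Fin a → Fin b → Fin c → k), (a ≤ m ∨ b ≤ m ∨ c ≤ m) → BijAll C (hypS T)

/-- **The Tate conjecture for divisors and cubic hypersurfaces.** See the explanations above. -/
theorem result {K : Type} [Field K] [NumberField K] {ℓ : ℕ} [Fact ℓ.Prime]
    {C : PairData.{w} K (ℤ × ℤ) ℚ_[ℓ]} (hC : IsWeightPair C) (hg : WeightGen C)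
    (point : BijAll C (aff K K)) {TateOne : Sch K → Prop}
    (surfaces : (∀ Y : Sch K, SmoothProj Y → TateOne Y) ↔ Proj C 2) :
    ((∀ Y : Sch K, SmoothProj Y → TateOne Y) ↔ Forms C 4) ∧ (Proj C 1 → Forms C 3) :=
  ⟨surfaces.trans (wg_dim hg hC point 2), (wg_dim hg hC point 1).mp⟩

end Pool.Agent.Results.MP_97f789_ag.FourVariables
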