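import Mathlib
import Pool.Agent.TH115.GD.Defs
import Pool.Agent.TH115.GD.Rk2

/-!
# The Tate conjecture at 2 for pull-backs of a rational elliptic surface by rational functions

Let `k` be a field of characteristic different from 2 (for example a number field), `k'` a separable
closure of `k`, `K = k(t)`, `F = k'(t)`. Let `α`, `β`, `μ` be elements of `k`, not zero, with

`((α + β)² - 1) ((α - β)² - 1) = μ²`.

The rational elliptic surface `y² = x (x - (p² - q²)) (x - (p² - r²))`, `p = α q + β r`, over the
projective line with the coordinate `s = q / r`, has six fibres of type `I₂` (over the zeros of the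
linear forms `p ± q`, `p ± r`, `q ± r`) and two independent sections, with the `x`-coordinates
`(p + q) (p + r)` and `(α + β - 1) / (α + β + 1)` times this.

Theorem 1. Let `q`, `r` be any coprime polynomials over `k` for which the six polynomials `p ± q`,
`p ± r`, `q ± r` are irreducible and separable of the same odd degree `n`. Then for the pull-back of
this surface by the RATIONAL function `s = q(t) / r(t)` of degree `n`, that is, for

`E : y² = x (x - (p(t)² - q(t)²)) (x - (p(t)² - r(t)²))`,

every class in `V₂ Sel(E / F)` which is fixed by the Galois group of `k` comes from `E(K)`. (The surface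
`X` has `6 n` fibres of type `I₂` and geometric genus `n - 1`. As `Br(X ⊗ k') = Ш(E / F)` up to
`p`-torsion (Grothendieck), this is the Tate conjecture for divisors on `X` at the prime 2.)

Theorem 2. Over every field of characteristic 0 with a discrete valuation for which `α`, `α ± 1` are
units and `β` is integral (over a number field and for `α = 35/24`, `β = 5/24`, `μ = 1`, say: every
valuation which does not divide `2 · 3 · 5 · 7 · 11 · 59`) all Eisenstein polynomials `q` of odd degree
`n` and all nonzero polynomials `r` of smaller degree with coefficients divisible by the uniformizer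
`π`, and constant term divisible by `π²`, satisfy the conditions.
-/

set_option autoImplicit false
set_option linter.all false

namespace Pool.Agent.Results.MP_97f789_ag.RationalPullbacks

open Polynomial Pool.Agent.TH115.GD

/-- Eisenstein polynomials over a discrete valuation ring, not monic. -/
theorem eis {R k : Type} [CommRing R] [IsDomain R] [IsDiscreteValuationRing R] [Field k]
    [Algebra R k] [IsFractionRing R k] {π : R} (hπ : Irreducible π) {f : R[X]} {n : ℕ} (hn : 0 < n)
    (hdeg : f.natDegree = n) (hu : IsUnit f.leadingCoeff) (hm : ∀ i, i < n → π ∣ f.coeff i)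
    (h0 : ¬ π ^ 2 ∣ f.coeff 0) : Irreducible (f.map (algebraMap R k)) := by
  have hprim : f.IsPrimitive := by
    intro c hc
    have h1 : c ∣ f.leadingCoeff := by
      obtain ⟨g, hg⟩ := hc
      rw [hg, leadingCoeff_mul, leadingCoeff_C]
      exact dvd_mul_right _ _
    exact isUnit_of_dvd_unit h1 hu
  haveI hP : (Ideal.span {π}).IsPrime := by
    rw [Ideal.span_singleton_prime hπ.ne_zero]
    exact hπ.prime
  have hE : f.IsEisensteinAt (Ideal.span {π}) := by
    refine ⟨?_, ?_, ?_⟩
    · intro h
      rw [Ideal.mem_span_singleton] at h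
      exact hπ.not_isUnit (isUnit_of_dvd_unit h hu)
    · intro i hi
      rw [Ideal.mem_span_singleton]
      exact hm i (by rw [← hdeg]; exact hi)
    · rw [Ideal.span_singleton_pow, Ideal.mem_span_singleton]
      exact h0
  have h1 := hE.irreducible hP hprim (by rw [hdeg]; exact hn)
  letI : NormalizedGCDMonoid R := Classical.choice inferInstance
  exact (hprim.irreducible_iff_irreducible_map_fraction_map).1 h1

/-- The forms `u q + v r`. -/
theorem form {R k : Type} [CommRing R] [IsDomain R] [IsDiscreteValuationRing R] [Field k]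
    [Algebra R k] [IsFractionRing R k] {π : R} (hπ : Irreducible π) {n : ℕ} (hn : 0 < n) {q r : R[X]}
    (hq : q.Monic) (hqn : q.natDegree = n) (hqe : ∀ i, i < n → π ∣ q.coeff i)
    (hq0 : ¬ π ^ 2 ∣ q.coeff 0) (hrn : r.natDegree < n) (hre : ∀ i, π ∣ r.coeff i)
    (hr0 : π ^ 2 ∣ r.coeff 0) {u v : R} (hu : IsUnit u) :
    Irreducible ((C u * q + C v * r).map (algebraMap R k)) ∧
      ((C u * q + C v * r).map (algebraMap R k)).natDegree = n := by
  have hu0 : u ≠ 0 := hu.ne_zero
  have d1 : (C u * q).natDegree = n := by rw [natDegree_C_mul hu0, hqn]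
  have d2 : (C v * r).natDegree < n := (natDegree_C_mul_le v r).trans_lt hrn
  have d3 : (C u * q + C v * r).natDegree = n := by
    rw [natDegree_add_eq_left_of_natDegree_lt (by rw [d1]; exact d2), d1]
  have d4 : (C u * q + C v * r).leadingCoeff = u := by
    rw [leadingCoeff, d3, coeff_add, coeff_eq_zero_of_natDegree_lt d2, add_zero, coeff_C_mul]
    have : q.coeff n = 1 := by rw [← hqn]; exact hq
    rw [this, mul_one]
  have inj := IsFractionRing.injective R k
  refine ⟨eis hπ hn d3 (by rw [d4]; exact hu) ?_ ?_, ?_⟩
  · intro i hi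
    rw [coeff_add, coeff_C_mul, coeff_C_mul]
    exact dvd_add (dvd_mul_of_dvd_right (hqe i hi) _) (dvd_mul_of_dvd_right (hre i) _)
  · intro h
    rw [coeff_add, coeff_C_mul, coeff_C_mul] at h
    have h1 : π ^ 2 ∣ u * q.coeff 0 := (dvd_add_left (dvd_mul_of_dvd_right hr0 v)).1 h
    exact hq0 ((hu.dvd_mul_left).1 h1)
  · rw [natDegree_map_eq_of_injective inj, d3]

/-- The six forms `p ± q`, `p ± r`, `q ± r` are irreducible and separable of degree `n`. -/
def SixForms {k : Type} [Field k] (n : ℕ) (p q r : k[X]) : Prop :=
  ∀ f ∈ ({p + q, p - q, p + r, p - r, q + r, q - r} : Set k[X]),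
    Irreducible f ∧ f.Separable ∧ f.natDegree = n

/-- The Tate conjecture at 2 for `y ^ 2 = x (x - (p ^ 2 - q ^ 2)) (x - (p ^ 2 - r ^ 2))` over `k(t)`. -/
def TateFor {k : Type} [Field k] (p q r : k[X]) : Prop :=
  ∀ (k' K F : Type) [Field k'] [Algebra k k'] [Field K] [Algebra k[X] K]
    [Field F] [Algebra k'[X] F] [IsFractionRing k'[X] F] [Algebra K F], IsTower k k' K F →
    TateAtTwo (F := F) k'
      (crv (algebraMap k[X] K (p ^ 2 - q ^ 2)) (algebraMap k[X] K (p ^ 2 - r ^ 2)))

/-- `q` is a monic Eisenstein polynomial of degree `n`, `r` is not zero of smaller degree, all its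
coefficients are divisible by `π` and its constant term by `π ^ 2`. -/
structure EisensteinPair {R : Type} [CommRing R] (π : R) (n : ℕ) (q r : R[X]) : Prop where
  monic : q.Monic
  degree : q.natDegree = n
  eisenstein : q.IsEisensteinAt (Ideal.span {π})
  ne_zero : r ≠ 0
  lt : r.natDegree < n
  dvd : ∀ i, π ∣ r.coeff i
  dvd_sq : π ^ 2 ∣ r.coeff 0

theorem result :
    (∀ (k : Type) [Field k], (2 : k) ≠ 0 → ∀ α β μ : k, α ≠ 0 → β ≠ 0 → μ ≠ 0 →
      ((α + β) ^ 2 - 1) * ((α - β) ^ 2 - 1) = μ ^ 2 → ∀ q r : k[X], IsCoprime q r →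
      ∀ n : ℕ, Odd n → SixForms n (C α * q + C β * r) q r → TateFor (C α * q + C β * r) q r) ∧
    (∀ (R k : Type) [CommRing R] [IsDomain R] [IsDiscreteValuationRing R] [Field k] [CharZero k]
      [Algebra R k] [IsFractionRing R k] (α β : R), IsUnit α → IsUnit (α + 1) → IsUnit (α - 1) →
      ∀ (π : R), Irreducible π → ∀ (n : ℕ) (q r : R[X]), Odd n → EisensteinPair π n q r →
      IsCoprime (q.map (algebraMap R k)) (r.map (algebraMap R k)) ∧
      SixForms n ((C α * q + C β * r).map (algebraMap R k)) (q.map (algebraMap R k))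
        (r.map (algebraMap R k))) := by
  refine ⟨?_, ?_⟩
  · intro k _ h2 α β μ hα hβ hμ hsq q r hco n hn hgood k' K F _ _ _ _ _ _ _ _ hT
    exact rank2 hT h2 hα hβ hμ hsq rfl hco hn hgood
  · intro R k _ _ _ _ _ _ _ α β hα hα1 hα2 π hπ n q r hn ⟨hq, hqn, hqE, hr, hrn, hre, hr0⟩
    obtain ⟨q', hq'⟩ : ∃ q', q' = q.map (algebraMap R k) := ⟨_, rfl⟩
    obtain ⟨r', hr'⟩ : ∃ r', r' = r.map (algebraMap R k) := ⟨_, rfl⟩
    obtain ⟨p', hp'⟩ : ∃ p', p' = (C α * q + C β * r).map (algebraMap R k) := ⟨_, rfl⟩
    rw [← hp', ← hq', ← hr']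
    rw [Polynomial.map_add, Polynomial.map_mul, Polynomial.map_mul, map_C, map_C, ← hq', ← hr'] at hp'
    have hpos := hn.pos
    have inj := IsFractionRing.injective R k
    have hqe : ∀ i, i < n → π ∣ q.coeff i := by
      intro i hi
      have := hqE.mem (n := i) (by rw [hqn]; exact hi)
      rwa [Ideal.mem_span_singleton] at this
    have hq0 : ¬ π ^ 2 ∣ q.coeff 0 := by
      have := hqE.notMem
      rwa [Ideal.span_singleton_pow, Ideal.mem_span_singleton] at this
    have key : ∀ (u v : R), IsUnit u → ∀ f : k[X],
        f = C (algebraMap R k u) * q' + C (algebraMap R k v) * r' →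
        Irreducible f ∧ f.Separable ∧ f.natDegree = n := by
      intro u v hu f hf
      have e : f = (C u * q + C v * r).map (algebraMap R k) := by
        rw [hf, hq', hr', Polynomial.map_add, Polynomial.map_mul, Polynomial.map_mul, map_C, map_C]
      obtain ⟨h1, h3⟩ := form (k := k) hπ hpos hq hqn hqe hq0 hrn hre hr0 (v := v) hu
      rw [e]
      exact ⟨h1, h1.separable, h3⟩
    refine ⟨?_, ?_⟩
    · obtain ⟨h1, -, h3⟩ := key 1 0 isUnit_one q' (by simp)
      have hr'0 : r' ≠ 0 := by
        rw [hr']
        exact (Polynomial.map_ne_zero_iff inj).2 hr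
      rw [h1.coprime_iff_not_dvd]
      intro hd
      have h4 := natDegree_le_of_dvd hd hr'0
      rw [h3, hr', natDegree_map_eq_of_injective inj] at h4
      omega
    · intro f hf
      simp only [Set.mem_insert_iff, Set.mem_singleton_iff] at hf
      rcases hf with h | h | h | h | h | h
      · refine key (α + 1) β hα1 f ?_
        rw [h, hp', map_add, map_one, C_add, C_1]; ring
      · refine key (α - 1) β hα2 f ?_
        rw [h, hp', map_sub, map_one, C_sub, C_1]; ring
      · refine key α (β + 1) hα f ?_
        rw [h, hp', map_add, map_one, C_add, C_1]; ring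
      · refine key α (β - 1) hα f ?_
        rw [h, hp', map_sub, map_one, C_sub, C_1]; ring
      · refine key 1 1 isUnit_one f ?_
        rw [h, map_one, C_1]; ring
      · refine key 1 (-1) isUnit_one f ?_
        rw [h, map_neg, map_one, C_neg, C_1]; ring

end Pool.Agent.Results.MP_97f789_ag.RationalPullbacks
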