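import Pool.Agent.Y160.T2.Main

set_option autoImplicit false

/-!
# The codimension-one Tate conjecture over number fields for surfaces with good reductions of the
same rank, for all residue characteristics

Let `p` be a prime, `q` a power of `p` and `m ≥ 1` prime to `p`. Let `O` be a normal domain with the
fraction field `k` of characteristic zero (or any other characteristic), which contains a primitive
`q`-th root of unity, and `π : O → F` a local homomorphism to a field `F` (for instance the residue
field of a discrete valuation ring). Consider the surfaces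

  `X_{d,M,c} : w ^ q = ∏ (x ^ M + τ - ρ_i) + (β + c t ^ (p ^ d)) ^ q`

over `k` and their reductions over `F`, `i = 1, ..., m`.

Theorem.

(1) If the images of the constants `ρ_i`, `γ_i`, `β`, `τ` in `F` satisfy the conditions `IsReduction`
(on `p`-th power residues in `F`, and the irreducibility of `2 m` binomials of degree `M` over `F`),
then for ALL `d ≥ 1` and ALL `c` in `O` with a nonzero image in `F`:

 (a) over `k`: the Tate conjecture for divisors on `X_{d,M,c}` holds at the prime `p`, the `p`-primary
 part of the Tate-Shafarevich group of the Jacobian `J` of the generic fibre over `k(t)` is zero, and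
 `J(k(t))` has a basis at `p` with exactly `(m - 1) (q - 1)` elements;

 (b) over `F`: the same statements for the reduction of `X_{d,M,c}`, with the SAME rank
 `(m - 1) (q - 1)`.

(2) For every prime `p₀` which does not divide `p m` there are a number field `k`, a discrete
valuation ring `O` with fraction field `k` and with a FINITE residue field `F` of characteristic `p₀`,
constants as in (1), and `N > 1`, such that the conditions of (1) hold for ALL `M = N ^ e`, `e ≥ 0`.

So over number fields there are, for all `m`, all powers `q` of `p` and every residue characteristic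
`p₀` prime to `p m`, families of surfaces of unbounded geometric genus (`d`, `e` grow) and of unbounded
rank, with constants independent of `d` and `e`, for which the map `C^1` is an isomorphism at the
prime `p`, and whose reductions at a fixed place over `p₀` satisfy the Tate conjecture too, with the
same number of independent sections: no divisor classes from sections appear in the reduction.
-/

namespace Pool.Agent.Results.MP_97f789_ag.SameRankReductions

open Polynomial
open Pool.Agent.TH115.GD (IsTower)
open Pool.Agent.Y160.SL (ShaBasis Concl IsReduction surfOver)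

/-- The conclusions for the surface over `k` and for its reduction over `F`, for all exponents `d` and
all coefficients `c` with a nonzero image in `F`. -/
def SameRank {O F : Type} [CommRing O] [Field F] (π : O →+* F) (k : Type) [Field k] [Algebra O k]
    (p q M : ℕ) {m : ℕ} (ρ : Fin m → O) (β τ : O) : Prop :=
  ∀ (d : ℕ) (c : O), 0 < d → π c ≠ 0 →
    (∀ (k' K L : Type) [Field k'] [Algebra k k'] [Field K] [Algebra k[X] K]
      [IsFractionRing k[X] K] [Field L] [Algebra k'[X] L] [IsFractionRing k'[X] L] [Algebra K L],
      IsTower k k' K L →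
        Concl p q (m - 1) k k' L (surfOver (algebraMap O k) q M (p ^ d) ρ τ β c K)) ∧
    ∀ (K : Type) [Field K] [Algebra F[X] K] [IsFractionRing F[X] K],
      ShaBasis p q (m - 1) F (surfOver π q M (p ^ d) ρ τ β c K)

theorem result {p s m : ℕ} (hp : p.Prime) (hm : 0 < m) (hcop : p.Coprime m) :
    (∀ (O k F : Type) [CommRing O] [IsDomain O] [IsIntegrallyClosed O] [Field k] [Algebra O k]
      [IsFractionRing O k] [Field F] (π : O →+* F) [IsLocalHom π] (ζ : O) (ρ γ : Fin m → O)
      (β τ : O) (M : ℕ), IsPrimitiveRoot ζ (p ^ (s + 1)) → IsPrimitiveRoot (π ζ) (p ^ (s + 1)) →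
        IsReduction π p (p ^ (s + 1)) M ρ γ β τ → SameRank π k p (p ^ (s + 1)) M ρ β τ) ∧
    ∀ p₀ : ℕ, p₀.Prime → p₀ ≠ p → p₀.Coprime m →
      ∃ (k O F : Type) (_ : Field k) (_ : NumberField k) (_ : CommRing O) (_ : IsDomain O)
        (_ : IsDiscreteValuationRing O) (_ : Algebra O k) (_ : IsFractionRing O k) (_ : Field F)
        (π : O →+* F) (_ : IsLocalHom π) (ζ : O) (ρ γ : Fin m → O) (β τ : O) (N : ℕ),
        Finite F ∧ CharP F p₀ ∧ IsPrimitiveRoot ζ (p ^ (s + 1)) ∧
          IsPrimitiveRoot (π ζ) (p ^ (s + 1)) ∧ π τ ≠ 0 ∧ 1 < N ∧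
            ∀ e : ℕ, IsReduction π p (p ^ (s + 1)) (N ^ e) ρ γ β τ ∧
              SameRank π k p (p ^ (s + 1)) (N ^ e) ρ β τ := by
  have h1 : ∀ (O k F : Type) [CommRing O] [IsDomain O] [IsIntegrallyClosed O] [Field k]
      [Algebra O k] [IsFractionRing O k] [Field F] (π : O →+* F) [IsLocalHom π] (ζ : O)
      (ρ γ : Fin m → O) (β τ : O) (M : ℕ), IsPrimitiveRoot ζ (p ^ (s + 1)) →
        IsPrimitiveRoot (π ζ) (p ^ (s + 1)) →
        IsReduction π p (p ^ (s + 1)) M ρ γ β τ → SameRank π k p (p ^ (s + 1)) M ρ β τ := by
    intro O k F _ _ _ _ _ _ _ π _ ζ ρ γ β τ M hζ hζF h d c hd hc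
    exact ⟨fun k' K L _ _ _ _ _ _ _ _ _ hT =>
        Pool.Agent.Y160.T2.over_k π hp rfl hm hcop hζ h hd hc hT,
      fun K _ _ _ => Pool.Agent.Y160.T2.over_F π hp rfl hm hcop hζF h hd hc K⟩
  refine ⟨h1, fun p₀ hp₀ hne hcop₀ => ?_⟩
  obtain ⟨k, O, F, i1, i2, i3, i4, i5, i6, i7, i8, π, i9, ζ, ρ, γ, β, τ, N, hF, hC, hζ, hζF, hτ, hN,
    hR⟩ := Pool.Agent.Y160.T2.exRed (s := s) hp hm hcop hp₀ hne hcop₀
  refine ⟨k, O, F, i1, i2, i3, i4, i5, i6, i7, i8, π, i9, ζ, ρ, γ, β, τ, N, hF, hC, hζ, hζF, hτ, hN,
    fun e => ⟨hR e, ?_⟩⟩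
  exact h1 O k F π ζ ρ γ β τ (N ^ e) hζ hζF (hR e)

end Pool.Agent.Results.MP_97f789_ag.SameRankReductions
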